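import Mathlib

/-!
# Even cohomology rings with algebraic classes

The even cohomology ring of a smooth projective variety, with its algebraic classes, and the
cohomological structure of a family of smooth projective varieties.
-/

set_option autoImplicit false

namespace Pool.Agent.R920.CD

universe u v w

section

variable (E : Type u) [Field E] (A : Type v) [CommRing A] [Algebra E A]

/-- The structure of the even cohomology ring `A = ⊕ H^{2i}(X)(i)` of a smooth projective variety
`X`, for a Weil cohomology theory with coefficients in the field `E`, with the classes of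
algebraic cycles. -/
structure Coh where
  /-- the part `H^{2i}(X)(i)` -/
  gr : ℕ → Submodule E A
  mul_mem {i j : ℕ} {a b : A} : a ∈ gr i → b ∈ gr j → a * b ∈ gr (i + j)
  /-- the dimension of `X` -/
  dim : ℕ
  /-- the trace map -/
  tr : A →ₗ[E] E
  /-- Poincaré duality -/
  pd {i j : ℕ} {a : A} : i + j = dim → a ∈ gr i → (∀ b ∈ gr j, tr (a * b) = 0) → a = 0
  /-- the classes of the algebraic cycles of codimension `i` -/
  alg : ℕ → AddSubgroup A
  alg_le {i : ℕ} {a : A} : a ∈ alg i → a ∈ gr i
  alg_mul {i j : ℕ} {a b : A} : a ∈ alg i → b ∈ alg j → a * b ∈ alg (i + j)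

end

section

variable {E : Type u} [Field E] {A : Type v} [CommRing A] [Algebra E A]

/-- The conjecture D for the cycles of dimension `m`: an algebraic class of dimension `m` which is
not zero is not numerically trivial. -/
def Coh.D (X : Coh E A) (m : ℕ) : Prop :=
  ∀ i : ℕ, i + m = X.dim → ∀ c ∈ X.alg i, c ≠ 0 → ∃ d ∈ X.alg m, X.tr (c * d) ≠ 0

/-- A semisimple action of the group `Γ` on the cohomology of `X` (in the application: the
geometric monodromy of a smooth family, which is semisimple by a theorem of Deligne). -/
structure Monodromy (X : Coh E A) (Γ : Type w) [Group Γ] where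
  /-- the action -/
  ρ : Γ →* (A ≃ₐ[E] A)
  mem (g : Γ) {i : ℕ} {a : A} : a ∈ X.gr i → ρ g a ∈ X.gr i
  tr (g : Γ) (a : A) : X.tr (ρ g a) = X.tr a
  semisimple (i : ℕ) (W : Submodule E A) : W ≤ X.gr i → (∀ g, ∀ a ∈ W, ρ g a ∈ W) →
    ∃ W' ≤ X.gr i, (∀ g, ∀ a ∈ W', ρ g a ∈ W') ∧ W ⊓ W' = ⊥ ∧ W ⊔ W' = X.gr i

variable {A' : Type v} [CommRing A'] [Algebra E A']

/-- `X` is the generic fibre of a morphism `T → B` of smooth projective varieties, with `B` of
dimension `r`; here `X` is smooth over the function field of `B`, and `Γ` is the geometric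
fundamental group of an open subset of `B` over which `T → B` is smooth. -/
structure GenericFibre (T : Coh E A') (X : Coh E A) {Γ : Type w} [Group Γ]
    (μ : Monodromy X Γ) (r : ℕ) where
  dim : T.dim = r + X.dim
  /-- the restriction to the (geometric) generic fibre -/
  res : A' →ₐ[E] A
  /-- the restriction of a cycle is a cycle -/
  res_alg {i : ℕ} {t : A'} : t ∈ T.alg i → res t ∈ X.alg i
  /-- a cycle on the generic fibre is the restriction of its closure -/
  closure {i : ℕ} {c : A} : c ∈ X.alg i → ∃ t ∈ T.alg i, res t = c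
  /-- the class of a fibre -/
  F : A'
  F_alg : F ∈ T.alg r
  F_tr {t : A'} : t ∈ T.gr X.dim → T.tr (F * t) = X.tr (res t)
  /-- the monodromy is trivial on restrictions -/
  inv (g : Γ) (t : A') : μ.ρ g (res t) = res t
  /-- the theorem on global invariant cycles (Deligne) -/
  exists_res {i : ℕ} {a : A} : a ∈ X.gr i → (∀ g, μ.ρ g a = a) → ∃ t ∈ T.gr i, res t = a

/-- A generically finite surjective morphism `X' → X` of smooth projective varieties of the same
dimension. -/
structure FiniteCover (X' : Coh E A') (X : Coh E A) where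
  dim : X'.dim = X.dim
  /-- the inverse image -/
  pull : A →ₐ[E] A'
  pull_alg {i : ℕ} {a : A} : a ∈ X.alg i → pull a ∈ X'.alg i
  /-- the direct image -/
  push : A' →ₗ[E] A
  push_alg {i : ℕ} {a : A'} : a ∈ X'.alg i → push a ∈ X.alg i
  proj (a : A) (b : A') : push (pull a * b) = a * push b
  push_tr (b : A') : X.tr (push b) = X'.tr b
  /-- the degree -/
  deg : ℕ
  deg_pos : 0 < deg
  push_one : push 1 = deg

end

end Pool.Agent.R920.CD
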