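import Pool.Agent.R920.CD.Defs

/-!
# The conjecture D for generic fibres
-/

set_option autoImplicit false

namespace Pool.Agent.R920.CD

universe u v w

variable {E : Type u} [Field E] {A : Type v} [CommRing A] [Algebra E A]
  {A' : Type v} [CommRing A'] [Algebra E A']

/-- An invariant class which is not zero has a non-zero product with some invariant class. -/
lemma exists_invariant {X : Coh E A} {Γ : Type w} [Group Γ] (μ : Monodromy X Γ)
    {i j : ℕ} (h : i + j = X.dim) {c : A} (hc : c ∈ X.gr i)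
    (hinv : ∀ g, μ.ρ g c = c) (h0 : c ≠ 0) :
    ∃ b ∈ X.gr j, (∀ g, μ.ρ g b = b) ∧ X.tr (c * b) ≠ 0 := by
  let f : A →ₗ[E] E := X.tr ∘ₗ LinearMap.mulLeft E c
  have hf : ∀ b, f b = X.tr (c * b) := fun b => rfl
  have hfi : ∀ g b, f (μ.ρ g b) = f b := by
    intro g b
    rw [hf, hf, ← μ.tr g (c * b), map_mul (μ.ρ g), hinv]
  obtain ⟨W', hW1, hW2, hW3, hW4⟩ := μ.semisimple j (LinearMap.ker f ⊓ X.gr j) inf_le_right (by
    rintro g a ⟨ha1, ha2⟩
    refine ⟨?_, μ.mem g ha2⟩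
    rw [SetLike.mem_coe, LinearMap.mem_ker] at ha1 ⊢
    rw [hfi, ha1])
  have hinv' : ∀ b ∈ W', ∀ g, μ.ρ g b = b := by
    intro b hb g
    have h1 : μ.ρ g b - b ∈ W' := Submodule.sub_mem _ (hW2 g b hb) hb
    have h2 : μ.ρ g b - b ∈ (LinearMap.ker f ⊓ X.gr j) ⊓ W' := by
      refine ⟨⟨?_, hW1 h1⟩, h1⟩
      rw [SetLike.mem_coe, LinearMap.mem_ker, map_sub, hfi, sub_self]
    rw [hW3, Submodule.mem_bot] at h2
    exact sub_eq_zero.1 h2
  by_contra hcon
  apply h0
  apply X.pd h hc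
  intro b hb
  rw [← hW4] at hb
  obtain ⟨x, hx, y, hy, rfl⟩ := Submodule.mem_sup.1 hb
  have hx1 : f x = 0 := LinearMap.mem_ker.1 hx.1
  have hy1 : f y = 0 := by
    by_contra hne
    exact hcon ⟨y, hW1 hy, hinv' y hy, hne⟩
  rw [← hf, map_add, hx1, hy1, add_zero]

/-- The conjecture D for the total space implies the conjecture D for the generic fibre. -/
theorem GenericFibre.D {T : Coh E A'} {X : Coh E A} {Γ : Type w} [Group Γ]
    {μ : Monodromy X Γ} {r : ℕ} (G : GenericFibre T X μ r) (m : ℕ) (hD : T.D m) : X.D m := by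
  intro i hi c hc h0
  obtain ⟨t, ht, rfl⟩ := G.closure hc
  obtain ⟨b, hb, hbi, hbt⟩ := exists_invariant μ hi (X.alg_le hc) (fun g => G.inv g t) h0
  obtain ⟨s, hs, rfl⟩ := G.exists_res hb hbi
  have hT : T.tr (G.F * t * s) ≠ 0 := by
    rw [mul_assoc, G.F_tr, map_mul G.res]
    · exact hbt
    · have := T.mul_mem (T.alg_le ht) hs
      rwa [hi] at this
  have hne : G.F * t ≠ 0 := by
    intro h
    rw [h, zero_mul, map_zero] at hT
    exact hT rfl
  obtain ⟨d, hd, hd'⟩ := hD (r + i) (by rw [G.dim]; omega) (G.F * t) (T.alg_mul G.F_alg ht) hne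
  refine ⟨G.res d, G.res_alg hd, ?_⟩
  rw [mul_assoc, G.F_tr, map_mul G.res] at hd'
  · exact hd'
  · have := T.mul_mem (T.alg_le ht) (T.alg_le hd)
    rwa [hi] at this

/-- The conjecture D for `X'` implies the conjecture D for `X`. -/
theorem FiniteCover.D [CharZero E] {X' : Coh E A'} {X : Coh E A} (φ : FiniteCover X' X) (m : ℕ)
    (hD : X'.D m) : X.D m := by
  intro i hi c hc h0
  have hne : φ.pull c ≠ 0 := by
    intro h
    apply h0
    have h1 := φ.proj c 1
    rw [h, zero_mul, map_zero, φ.push_one] at h1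
    have h2 : (φ.deg : E) • c = 0 := by
      rw [Algebra.smul_def, map_natCast, mul_comm]
      exact h1.symm
    have h3 : (φ.deg : E) ≠ 0 := by
      exact_mod_cast φ.deg_pos.ne'
    exact (smul_eq_zero.1 h2).resolve_left h3
  obtain ⟨d, hd, hd'⟩ := hD i (by rw [φ.dim]; exact hi) _ (φ.pull_alg hc) hne
  refine ⟨φ.push d, φ.push_alg hd, ?_⟩
  rw [← φ.proj, φ.push_tr]
  exact hd'

end Pool.Agent.R920.CD
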